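import Mathlib

namespace Pool.Agent.Results.MP_f57d9c_nt.Full

open Finset Matrix

/-- The `(p+1)/2 × (p+1)/2` integer matrix of the problem, rows and columns indexed by
`0, 1, …, (p-1)/2`, with `(j,k)` entry `(j+k / p) + (j-k / p) + δ₁ (j² + δ₂ k² / p)`. -/
def legMat (p : ℕ) [Fact p.Prime] (δ₁ δ₂ : ℤ) :
    Matrix (Fin ((p + 1) / 2)) (Fin ((p + 1) / 2)) ℤ :=
  Matrix.of fun j k =>
    legendreSym p ((j : ℤ) + (k : ℤ)) + legendreSym p ((j : ℤ) - (k : ℤ))
      + δ₁ * legendreSym p ((j : ℤ) ^ 2 + δ₂ * (k : ℤ) ^ 2)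

section aux

variable {F : Type*} [Field F]

/-- coefficient matrix -/
def cMat (m : ℕ) (d₁ d₂ : F) : Matrix (Fin (2 * m + 1)) (Fin (2 * m + 1)) F :=
  Matrix.of fun a b =>
    (if (a : ℕ) + (b : ℕ) = m then 2 * ((2 * m).choose (2 * (b : ℕ)) : F) else 0)
      + (if (a : ℕ) + (b : ℕ) = 2 * m then d₁ * (d₂ ^ (b : ℕ) * ((2 * m).choose (b : ℕ) : F)) else 0)

lemma even_part (m : ℕ) (x y : F) :
    (x + y) ^ (2 * m) + (x - y) ^ (2 * m)
      = ∑ b ∈ range (m + 1), 2 * ((2 * m).choose (2 * b) : F) * ((x ^ 2) ^ (m - b) * (y ^ 2) ^ b) := by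
  have h1 : (x + y) ^ (2 * m) = ∑ i ∈ range (2 * m + 1), y ^ i * x ^ (2 * m - i) * ((2 * m).choose i : F) := by
    rw [add_comm, add_pow]
  have h2 : (x - y) ^ (2 * m) = ∑ i ∈ range (2 * m + 1), (-y) ^ i * x ^ (2 * m - i) * ((2 * m).choose i : F) := by
    rw [sub_eq_neg_add, add_pow]
  rw [h1, h2, ← sum_add_distrib]
  have h3 : ∀ g : ℕ → F, (∀ i, Odd i → g i = 0) →
      ∑ i ∈ range (2 * m + 1), g i = ∑ b ∈ range (m + 1), g (2 * b) := by
    intro g hg
    clear h1 h2
    induction m with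
    | zero => simp
    | succ k ih =>
      rw [sum_range_succ, show 2 * (k + 1) = 2 * k + 1 + 1 by ring, sum_range_succ,
        sum_range_succ, ← sum_range_succ (fun i => g i) (2 * k), ih]
      rw [sum_range_succ (n := k + 1), hg (2 * k + 1) ⟨k, rfl⟩]
      rw [show 2 * (k + 1) = 2 * k + 1 + 1 by ring]
      ring
  rw [h3]
  · refine sum_congr rfl fun b hb => ?_
    have hb' : b ≤ m := by simpa [Nat.lt_succ_iff] using hb
    rw [show 2 * m - 2 * b = 2 * (m - b) by omega, pow_mul, pow_mul, pow_mul, neg_sq]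
    ring
  · intro i hi
    rw [hi.neg_pow]
    ring

lemma sum_antidiag (N r : ℕ) (hr : r ≤ N) (c : ℕ → F) (X Y : F) :
    ∑ a : Fin (N + 1), ∑ b : Fin (N + 1),
      X ^ (a : ℕ) * (if (a : ℕ) + (b : ℕ) = r then c b else 0) * Y ^ (b : ℕ)
      = ∑ b ∈ range (r + 1), c b * (X ^ (r - b) * Y ^ b) := by
  rw [Finset.sum_comm]
  rw [Fin.sum_univ_eq_sum_range (fun b => ∑ a : Fin (N + 1),
      X ^ (a : ℕ) * (if (a : ℕ) + b = r then c b else 0) * Y ^ b) (N + 1)]
  rw [← Finset.sum_subset (s₁ := range (r + 1)) (s₂ := range (N + 1))]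
  · refine sum_congr rfl fun b hb => ?_
    have hb' : b ≤ r := by simpa [Nat.lt_succ_iff] using hb
    rw [Fin.sum_univ_eq_sum_range (fun a => X ^ a * (if a + b = r then c b else 0) * Y ^ b) (N + 1)]
    rw [Finset.sum_eq_single (r - b)]
    · rw [if_pos (by omega)]; ring
    · intro a _ ha
      rw [if_neg (by omega)]; ring
    · intro h
      exact absurd (Finset.mem_range.mpr (by omega)) h
  · intro i hi; simp at hi ⊢; omega
  · intro b hb hb'
    have : r < b := by simpa [Nat.lt_succ_iff] using hb'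
    refine sum_eq_zero fun a _ => ?_
    rw [if_neg (by omega)]; ring

lemma factor (m : ℕ) (d₁ d₂ : F) (x : Fin (2 * m + 1) → F) :
    (Matrix.of fun j k => (x j + x k) ^ (2 * m) + (x j - x k) ^ (2 * m)
        + d₁ * ((x j) ^ 2 + d₂ * (x k) ^ 2) ^ (2 * m))
      = vandermonde (fun j => (x j) ^ 2) * cMat m d₁ d₂ * (vandermonde (fun j => (x j) ^ 2))ᵀ := by
  ext j k
  rw [Matrix.mul_assoc, Matrix.mul_apply]
  simp only [Matrix.mul_apply, Matrix.transpose_apply, vandermonde_apply, cMat, Matrix.of_apply]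
  have e1 : ∀ a : Fin (2 * m + 1), ((x j) ^ 2) ^ (a : ℕ) * ∑ b : Fin (2 * m + 1),
      ((if (a : ℕ) + (b : ℕ) = m then 2 * ((2 * m).choose (2 * (b : ℕ)) : F) else 0)
      + (if (a : ℕ) + (b : ℕ) = 2 * m then d₁ * (d₂ ^ (b : ℕ) * ((2 * m).choose (b : ℕ) : F)) else 0))
      * ((x k) ^ 2) ^ (b : ℕ)
      = (∑ b : Fin (2 * m + 1), ((x j) ^ 2) ^ (a : ℕ) *
          (if (a : ℕ) + (b : ℕ) = m then 2 * ((2 * m).choose (2 * (b : ℕ)) : F) else 0) * ((x k) ^ 2) ^ (b : ℕ))
        + ∑ b : Fin (2 * m + 1), ((x j) ^ 2) ^ (a : ℕ) *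
          (if (a : ℕ) + (b : ℕ) = 2 * m then d₁ * (d₂ ^ (b : ℕ) * ((2 * m).choose (b : ℕ) : F)) else 0)
            * ((x k) ^ 2) ^ (b : ℕ) := by
    intro a
    rw [Finset.mul_sum, ← Finset.sum_add_distrib]
    refine sum_congr rfl fun b _ => ?_
    ring
  rw [Finset.sum_congr rfl fun a _ => e1 a, Finset.sum_add_distrib]
  rw [sum_antidiag (2 * m) m (by omega) (fun b => 2 * ((2 * m).choose (2 * b) : F)),
    sum_antidiag (2 * m) (2 * m) le_rfl (fun b => d₁ * (d₂ ^ b * ((2 * m).choose b : F))),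
    even_part]
  congr 1
  rw [add_comm, add_pow, Finset.mul_sum]
  refine sum_congr rfl fun b _ => ?_
  rw [mul_pow]
  ring

lemma cMat_rev_det (m : ℕ) (hm : 0 < m) (d₁ d₂ : F) :
    ((cMat m d₁ d₂).submatrix id (Fin.revPerm (n := 2 * m + 1))).det
      = ∏ i : Fin (2 * m + 1), (d₁ * (d₂ ^ (2 * m - (i : ℕ)) * ((2 * m).choose (2 * m - (i : ℕ)) : F))) := by
  rw [det_of_isUpperTriangular]
  · refine Finset.prod_congr rfl fun i _ => ?_
    have hi := i.isLt
    simp only [cMat, submatrix_apply, Matrix.of_apply, id, Fin.revPerm_apply, Fin.val_rev]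
    rw [if_neg (by omega), if_pos (by omega), show 2 * m + 1 - ((i : ℕ) + 1) = 2 * m - i by omega]
    ring
  · intro i j hij
    have hi := i.isLt
    have hj := j.isLt
    have hij' : (j : ℕ) < i := hij
    simp only [cMat, submatrix_apply, Matrix.of_apply, id, Fin.revPerm_apply, Fin.val_rev]
    rw [if_neg (by omega), if_neg (by omega)]
    ring

/-- nonzero squares -/
def NZSq (a : F) : Prop := a ≠ 0 ∧ IsSquare a

lemma NZSq.mul {a b : F} (ha : NZSq a) (hb : NZSq b) : NZSq (a * b) :=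
  ⟨mul_ne_zero ha.1 hb.1, ha.2.mul hb.2⟩

lemma NZSq.self_mul {a : F} (ha : a ≠ 0) : NZSq (a * a) := ⟨mul_ne_zero ha ha, a, rfl⟩

lemma NZSq.prod {ι : Type*} (s : Finset ι) (f : ι → F) (h : ∀ i ∈ s, NZSq (f i)) :
    NZSq (∏ i ∈ s, f i) := by
  classical
  induction s using Finset.induction_on with
  | empty => exact ⟨by simp, 1, by simp⟩
  | insert a s ha ih =>
    rw [Finset.prod_insert ha]
    exact (h a (by simp)).mul (ih fun i hi => h i (by simp [hi]))

lemma NZSq.of_sign (hneg : IsSquare (-1 : F)) {e : F} (he : e = 1 ∨ e = -1) : NZSq e := by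
  rcases he with rfl | rfl
  · exact ⟨one_ne_zero, 1, by simp⟩
  · exact ⟨neg_ne_zero.mpr one_ne_zero, hneg⟩

lemma NZSq.pow {a : F} (ha : NZSq a) (n : ℕ) : NZSq (a ^ n) :=
  ⟨pow_ne_zero _ ha.1, ha.2.pow n⟩

lemma choose_prod (m : ℕ) :
    ∏ i : Fin (2 * m + 1), ((2 * m).choose (2 * m - (i : ℕ)) : F)
      = (∏ i ∈ range m, ((2 * m).choose i : F)) * (∏ i ∈ range m, ((2 * m).choose i : F))
        * ((2 * m).choose m : F) := by
  rw [Fin.prod_univ_eq_prod_range (fun i => ((2 * m).choose (2 * m - i) : F)) (2 * m + 1)]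
  have h0 : ∏ i ∈ range (2 * m + 1), ((2 * m).choose (2 * m - i) : F)
      = ∏ i ∈ range (2 * m + 1), ((2 * m).choose i : F) := by
    refine Finset.prod_congr rfl fun i hi => ?_
    rw [Nat.choose_symm (by simpa [Nat.lt_succ_iff] using hi)]
  rw [h0, show 2 * m + 1 = (m + 1) + m by ring, prod_range_add, prod_range_succ]
  have h1 : ∏ x ∈ range m, ((2 * m).choose (m + 1 + x) : F)
      = ∏ i ∈ range m, ((2 * m).choose i : F) := by
    rw [← prod_range_reflect]
    refine Finset.prod_congr rfl fun i hi => ?_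
    have hi' : i < m := by simpa using hi
    rw [← Nat.choose_symm (show i ≤ 2 * m by omega)]
    congr 2
    omega
  rw [h1]
  ring

end aux

lemma half_factorial_sq (p m : ℕ) [Fact p.Prime] (hp : p = 4 * m + 1) :
    (((2 * m).factorial : ℕ) : ZMod p) * (((2 * m).factorial : ℕ) : ZMod p) = -1 := by
  rw [← ZMod.wilsons_lemma p]
  have h1 : p - 1 = 2 * m + 2 * m := by omega
  rw [h1, ← prod_range_add_one_eq_factorial (2 * m + 2 * m), prod_range_add,
    prod_range_add_one_eq_factorial]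
  push_cast
  congr 1
  rw [← prod_range_add_one_eq_factorial, ← prod_range_reflect]
  push_cast
  have h2 : ∀ x ∈ range (2 * m), (2 * (m : ZMod p) + (x : ZMod p) + 1)
      = (-1) * (((2 * m - 1 - x : ℕ) : ZMod p) + 1) := by
    intro x hx
    have hx' : x < 2 * m := by simpa using hx
    have h3 : ((2 * m - 1 - x : ℕ) : ZMod p) + 1 = 2 * m - x := by
      have : (2 * m - 1 - x) + 1 + x = 2 * m := by omega
      have h4 : (((2 * m - 1 - x) + 1 + x : ℕ) : ZMod p) = ((2 * m : ℕ) : ZMod p) := by rw [this]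
      push_cast at h4
      linear_combination h4
    rw [h3]
    have h5 : ((4 * m + 1 : ℕ) : ZMod p) = 0 := by rw [← hp]; simp
    push_cast at h5
    linear_combination h5
  rw [Finset.prod_congr rfl h2, Finset.prod_mul_distrib]
  simp

lemma two_choose_nzsq (p m : ℕ) [Fact p.Prime] (hp : p = 4 * m + 1) :
    NZSq (2 * ((2 * m).choose m : ZMod p)) := by
  have hw := half_factorial_sq p m hp
  set w : ZMod p := (((2 * m).factorial : ℕ) : ZMod p) with hwdef
  have hpp : p.Prime := Fact.out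
  have h2 : (2 : ZMod p) ≠ 0 := by
    intro h
    have : p ∣ 2 := by
      have : ((2 : ℕ) : ZMod p) = 0 := by exact_mod_cast h
      exact (ZMod.natCast_eq_zero_iff 2 p).mp this
    have := Nat.le_of_dvd (by norm_num) this
    have := hpp.two_le
    omega
  have hw0 : w ≠ 0 := by
    intro h; rw [h] at hw; simp at hw
  have hf0 : ((m.factorial : ℕ) : ZMod p) ≠ 0 := by
    rw [Ne, ZMod.natCast_eq_zero_iff, hpp.dvd_factorial]
    omega
  have hc : ((2 * m).choose m : ZMod p) * (m.factorial : ZMod p) * (m.factorial : ZMod p) = w := by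
    have := Nat.choose_mul_factorial_mul_factorial (show m ≤ 2 * m by omega)
    rw [show 2 * m - m = m by omega] at this
    rw [hwdef, ← this]
    push_cast
    ring
  have hsq : 2 * w = (1 + w) * (1 + w) := by linear_combination -hw
  have hce : 2 * ((2 * m).choose m : ZMod p)
      = ((1 + w) / (m.factorial : ZMod p)) * ((1 + w) / (m.factorial : ZMod p)) := by
    field_simp
    linear_combination 2 * hc + hsq
  refine ⟨?_, _, hce⟩
  refine mul_ne_zero h2 ?_
  intro h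
  rw [h] at hc
  simp at hc
  exact hw0 hc.symm

/-- For every prime `p ≡ 1 (mod 4)` and all signs `δ₁, δ₂`, the integer `2 D_p(δ₁, δ₂)` is a
quadratic residue modulo `p`. -/
theorem result (p : ℕ) [Fact p.Prime] (hp : p % 4 = 1) (δ₁ δ₂ : ℤ)
    (h₁ : δ₁ = 1 ∨ δ₁ = -1) (h₂ : δ₂ = 1 ∨ δ₂ = -1) :
    ¬ (p : ℤ) ∣ 2 * (legMat p δ₁ δ₂).det ∧
      ∃ y : ℤ, 2 * (legMat p δ₁ δ₂).det ≡ y ^ 2 [ZMOD p] := by
  obtain ⟨m, hm⟩ : ∃ m, p = 4 * m + 1 := ⟨p / 4, by omega⟩
  have hpp : p.Prime := Fact.out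
  have hm0 : 0 < m := by
    rcases Nat.eq_zero_or_pos m with h | h
    · subst h; simp at hm; subst hm; exact absurd hpp (by norm_num)
    · exact h
  have hsz : 2 * m + 1 = (p + 1) / 2 := by omega
  have hneg : IsSquare (-1 : ZMod p) := ZMod.exists_sq_eq_neg_one_iff.mpr (by omega)
  set d₁ : ZMod p := (δ₁ : ZMod p) with hd₁
  set d₂ : ZMod p := (δ₂ : ZMod p) with hd₂
  have hd₁' : NZSq d₁ := NZSq.of_sign hneg (by rcases h₁ with h | h <;> simp [hd₁, h])
  have hd₂' : NZSq d₂ := NZSq.of_sign hneg (by rcases h₂ with h | h <;> simp [hd₂, h])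
  have hdet : (((legMat p δ₁ δ₂).det : ℤ) : ZMod p)
      = (Matrix.of fun j k : Fin (2 * m + 1) =>
          (((j : ℕ) : ZMod p) + ((k : ℕ) : ZMod p)) ^ (2 * m)
          + (((j : ℕ) : ZMod p) - ((k : ℕ) : ZMod p)) ^ (2 * m)
          + d₁ * (((j : ℕ) : ZMod p) ^ 2 + d₂ * ((k : ℕ) : ZMod p) ^ 2) ^ (2 * m)).det := by
    rw [← det_submatrix_equiv_self (finCongr hsz) (legMat p δ₁ δ₂)]
    have := RingHom.map_det (Int.castRingHom (ZMod p))
      ((legMat p δ₁ δ₂).submatrix (finCongr hsz) (finCongr hsz))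
    simp only [eq_intCast] at this
    rw [this]
    congr 1
    ext j k
    have hp2 : p / 2 = 2 * m := by omega
    simp only [RingHom.mapMatrix_apply, map_apply, submatrix_apply, legMat, Matrix.of_apply,
      eq_intCast, Int.cast_add, Int.cast_mul, legendreSym.eq_pow, hp2]
    simp [hd₁, hd₂]
  rw [factor] at hdet
  set V := vandermonde (fun j : Fin (2 * m + 1) => (((j : ℕ) : ZMod p)) ^ 2) with hV
  have hVdet : V.det ≠ 0 := by
    rw [hV, det_vandermonde_ne_zero_iff]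
    intro i j hij
    have hi := i.isLt
    have hj := j.isLt
    have hij' : ((i : ℕ) : ZMod p) ^ 2 = ((j : ℕ) : ZMod p) ^ 2 := hij
    rcases sq_eq_sq_iff_eq_or_eq_neg.mp hij' with h | h
    · have := (ZMod.natCast_eq_natCast_iff' _ _ _).mp h
      rw [Nat.mod_eq_of_lt (by omega), Nat.mod_eq_of_lt (by omega)] at this
      exact Fin.ext this
    · have h' : (((i : ℕ) + (j : ℕ) : ℕ) : ZMod p) = 0 := by
        push_cast; rw [h]; ring
      rw [ZMod.natCast_eq_zero_iff] at h'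
      have : (i : ℕ) + (j : ℕ) = 0 := by
        by_contra hne
        have := Nat.le_of_dvd (by omega) h'
        omega
      exact Fin.ext (by omega)
  have hrev : (cMat m d₁ d₂).det = ((Equiv.Perm.sign (Fin.revPerm (n := 2 * m + 1)) : ℤ) : ZMod p) *
      ∏ i : Fin (2 * m + 1), (d₁ * (d₂ ^ (2 * m - (i : ℕ)) * ((2 * m).choose (2 * m - (i : ℕ)) : ZMod p))) := by
    rw [← cMat_rev_det m hm0 d₁ d₂, det_permute', ← mul_assoc]
    have : ((Equiv.Perm.sign (Fin.revPerm (n := 2 * m + 1)) : ℤ) : ZMod p)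
        * ((Equiv.Perm.sign (Fin.revPerm (n := 2 * m + 1)) : ℤ) : ZMod p) = 1 := by
      rcases Int.units_eq_one_or (Equiv.Perm.sign (Fin.revPerm (n := 2 * m + 1))) with h | h <;>
        simp [h]
    rw [this, one_mul]
  have hchne : ∀ i ∈ range m, ((2 * m).choose i : ZMod p) ≠ 0 := by
    intro i hi
    have hi' : i < m := by simpa using hi
    rw [Ne, ZMod.natCast_eq_zero_iff]
    intro hdiv
    have h3 := Nat.choose_mul_factorial_mul_factorial (show i ≤ 2 * m by omega)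
    have h4 : p ∣ (2 * m).factorial := by
      rw [← h3, mul_assoc]; exact Dvd.dvd.mul_right hdiv _
    rw [hpp.dvd_factorial] at h4
    omega
  have key : NZSq (2 * (((legMat p δ₁ δ₂).det : ℤ) : ZMod p)) := by
    rw [hdet, det_mul, det_mul, det_transpose, hrev, Finset.prod_mul_distrib,
      Finset.prod_mul_distrib, choose_prod]
    have e : 2 * (V.det * (((Equiv.Perm.sign (Fin.revPerm (n := 2 * m + 1)) : ℤ) : ZMod p) *
        ((∏ _i : Fin (2 * m + 1), d₁) * ((∏ i : Fin (2 * m + 1), d₂ ^ (2 * m - (i : ℕ))) *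
        ((∏ i ∈ range m, ((2 * m).choose i : ZMod p)) * (∏ i ∈ range m, ((2 * m).choose i : ZMod p))
        * ((2 * m).choose m : ZMod p))))) * V.det)
      = (V.det * V.det) * ((((Equiv.Perm.sign (Fin.revPerm (n := 2 * m + 1)) : ℤ) : ZMod p)) *
        ((∏ _i : Fin (2 * m + 1), d₁) * ((∏ i : Fin (2 * m + 1), d₂ ^ (2 * m - (i : ℕ))) *
        (((∏ i ∈ range m, ((2 * m).choose i : ZMod p)) * (∏ i ∈ range m, ((2 * m).choose i : ZMod p)))
        * (2 * ((2 * m).choose m : ZMod p)))))) := by ring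
    rw [e]
    refine (NZSq.self_mul hVdet).mul (NZSq.mul ?_ (NZSq.mul ?_ (NZSq.mul ?_ (NZSq.mul ?_ ?_))))
    · refine NZSq.of_sign hneg ?_
      rcases Int.units_eq_one_or (Equiv.Perm.sign (Fin.revPerm (n := 2 * m + 1))) with h | h <;>
        simp [h]
    · exact NZSq.prod _ _ fun _ _ => hd₁'
    · exact NZSq.prod _ _ fun _ _ => hd₂'.pow _
    · exact NZSq.self_mul (Finset.prod_ne_zero_iff.mpr hchne)
    · exact two_choose_nzsq p m hm
  obtain ⟨hk0, y, hy⟩ := key
  constructor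
  · intro hdvd
    apply hk0
    have := (ZMod.intCast_zmod_eq_zero_iff_dvd (2 * (legMat p δ₁ δ₂).det) p).mpr hdvd
    rw [Int.cast_mul, Int.cast_ofNat] at this
    exact this
  · refine ⟨(y.val : ℤ), ?_⟩
    rw [← ZMod.intCast_eq_intCast_iff, Int.cast_mul, Int.cast_ofNat, Int.cast_pow,
      Int.cast_natCast, ZMod.natCast_val, ZMod.cast_id', id, sq]
    exact hy

end Pool.Agent.Results.MP_f57d9c_nt.Full
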